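import Pool.Agent.Q279.SN.Stm

/-!
# Project SN: assembly from the lemma jobs
-/

namespace Pool.Agent.Q279.SN

/-- The invariants of a piece used in the iteration. -/
structure Inv (P : Piece) : Prop where
  cub : Cubic P.G
  gir : NoShort P.G
  p4 : P4 P.G
  nc : NC P
  zef : ZEF P.G

section
variable (hHand : Hand) (hZN : ZefNC) (hFN : ForcedNC) (hFZ : ForcedZEF) (hC : NextCubic)
  (hG : NextNoShort) (hP : NextP4) (hF : NextForced) (hB : NextBad) (hM : NextMany)

include hFN hFZ hC hG hP hF in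
theorem inv_next {P : Piece} (h : Inv P) : Inv (next P) where
  cub := hC P h.cub h.gir
  gir := hG P h.cub h.gir
  p4 := hP P h.cub h.gir h.p4
  nc := hFN _ (hC P h.cub h.gir) (hG P h.cub h.gir) (hF P h.cub h.gir h.nc)
  zef := hFZ _ (hC P h.cub h.gir) (hF P h.cub h.gir h.nc)

/-- The iterated pieces. -/
def iter (P : Piece) : ℕ → Piece
  | 0 => P
  | n + 1 => next (iter P n)

include hFN hFZ hC hG hP hF in
theorem inv_iter {P : Piece} (h : Inv P) (n : ℕ) : Inv (iter P n) := by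
  induction n with
  | zero => exact h
  | succ n ih => exact inv_next hFN hFZ hC hG hP hF ih

include hFN hFZ hC hG hP hF hB hM in
theorem many_iter {P : Piece} (h : Inv P) (n : ℕ) : ManyBad (iter P (n + 2)) (3 ^ n) := by
  induction n with
  | zero =>
    have h1 := inv_iter hFN hFZ hC hG hP hF h 1
    have h0 := inv_iter hFN hFZ hC hG hP hF h 0
    exact hB (iter P 1) h1.cub h1.gir (hF (iter P 0) h0.cub h0.gir h0.nc)
  | succ n ih =>
    have h1 := inv_iter hFN hFZ hC hG hP hF h (n + 2)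
    have := hM (iter P (n + 2)) (3 ^ n) h1.cub h1.gir ih
    rw [pow_succ, mul_comm]
    exact this

end

/-- Bad vertices of a labelling of the whole graph. -/
theorem bad_full (P : Piece) (N : ℕ) (hN : ManyBad P N) (L : P.V → P.V → Finset ℕ)
    (hL : FullLab P.G L) : N ≤ {v | ¬ GoodAt P.G L v}.ncard := by
  refine le_trans (hN L ⟨hL.1, fun v _ _ => hL.2 v⟩) ?_
  exact Set.ncard_le_ncard (fun v hv => hv.2.2) (Set.toFinite _)

theorem final (hZN : ZefNC) (hFN : ForcedNC) (hFZ : ForcedZEF) (hC : NextCubic)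
    (hG : NextNoShort) (hP : NextP4) (hF : NextForced) (hB : NextBad) (hM : NextMany)
    (hCyc : CycOfP4) (hEg : EgirthOfNoShort) (hCol : NotColourable) (hExc : ExcOfZEF)
    (hLen : CoverLen) (hPet : PetersenShape) (c : ℕ) :
    ∃ P : Fin 3 → Piece, (∀ i, IsSnark (P i).G ∧ ExcGeFive (P i).G) ∧
      ∀ (m : ℕ) (C : Fin m → (comp P).Subgraph), IsCycleCover C →
        4 * (comp P).edgeSet.ncard + 3 * c ≤ 3 * coverLength C := by
  obtain ⟨P0, h1, h2, h3, h4⟩ := hPet
  have hI : Inv P0 := ⟨h1, h2, h3, hZN P0 h1 h2 h4, h4⟩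
  have hIn := inv_iter hFN hFZ hC hG hP hF hI (c + 1)
  refine ⟨three (iter P0 (c + 1)), fun _ => ⟨⟨hIn.cub, hCol _ _ hIn.cub hIn.zef,
    hEg _ _ hIn.gir, hCyc _ _ hIn.p4⟩, hExc _ _ hIn.cub hIn.zef⟩, ?_⟩
  intro m C hCC
  have hm : ManyBad (next (iter P0 (c + 1))) (3 ^ c) :=
    many_iter hFN hFZ hC hG hP hF hB hM hI c
  obtain ⟨L, hL, hle⟩ := hLen _ (comp (three (iter P0 (c + 1))))
    (hC _ hIn.cub hIn.gir) m C hCC
  have hb := bad_full (next (iter P0 (c + 1))) (3 ^ c) hm L hL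
  have hc : c ≤ 3 ^ c := (Nat.lt_pow_self (by norm_num)).le
  change 3 ^ c ≤ {v | ¬ GoodAt (comp (three (iter P0 (c + 1)))) L v}.ncard at hb
  have : 4 * (comp (three (iter P0 (c + 1)))).edgeSet.ncard + 3 * c ≤
    4 * (comp (three (iter P0 (c + 1)))).edgeSet.ncard +
      3 * {v | ¬ GoodAt (comp (three (iter P0 (c + 1)))) L v}.ncard := by omega
  exact this.trans hle

end Pool.Agent.Q279.SN
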