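import Mathlib

/-!
# Project SN (row MP_dce662_co): snarks with large excess of the shortest cycle cover

Definitions and the statements of the lemma jobs.
-/

namespace Pool.Agent.Q279.SN

open Finset

/-! ## The notions of the problem -/

section defs
variable {V : Type} (G : SimpleGraph V)

/-- A cubic graph: every vertex has exactly three neighbours. -/
def Cubic : Prop := ∀ v, (G.neighborSet v).ncard = 3

/-- The edges of `G` are properly coloured with three colours. -/
def ThreeEdgeColourable : Prop :=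
  ∃ c : Sym2 V → Fin 3, ∀ e ∈ G.edgeSet, ∀ f ∈ G.edgeSet, e ≠ f → (∃ v, v ∈ e ∧ v ∈ f) → c e ≠ c f

/-- The set of edges with exactly one end in `X`. -/
def edgeCut (X : Set V) : Set (Sym2 V) :=
  {e | ∃ v w, G.Adj v w ∧ v ∈ X ∧ w ∉ X ∧ e = s(v, w)}

/-- Cyclic 4-edge-connectivity: fewer than four edges never separate two parts both
containing a cycle. -/
def CyclFour : Prop :=
  ∀ X : Set V, ¬ (G.induce X).IsAcyclic → ¬ (G.induce Xᶜ).IsAcyclic → 4 ≤ (edgeCut G X).ncard

/-- A snark: cubic, not 3-edge-colourable, of girth at least five, cyclically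
4-edge-connected. -/
def IsSnark : Prop :=
  Cubic G ∧ ¬ ThreeEdgeColourable G ∧ 5 ≤ G.egirth ∧ CyclFour G

/-- A perfect matching, as a set of edges meeting every vertex exactly once. -/
def IsPM (M : Set (Sym2 V)) : Prop :=
  M ⊆ G.edgeSet ∧ ∀ v, ∃! e, e ∈ M ∧ v ∈ e

/-- A `k`-cover: a set of `k` perfect matchings whose union contains every edge. -/
def IsCover (k : ℕ) (S : Finset (Set (Sym2 V))) : Prop :=
  S.card = k ∧ (∀ M ∈ S, IsPM G M) ∧ ∀ e ∈ G.edgeSet, ∃ M ∈ S, e ∈ M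

/-- The excessive index is at least five: every `k`-cover has `k ≥ 5`. -/
def ExcGeFive : Prop := ∀ k S, IsCover G k S → 5 ≤ k

variable {G}

/-- A cycle in the sense of the problem: a connected subgraph with all degrees even. -/
def IsEvenCycle (C : G.Subgraph) : Prop :=
  C.Connected ∧ ∀ v, Even (C.neighborSet v).ncard

/-- A cycle cover: a finite family of cycles covering every edge. -/
def IsCycleCover {m : ℕ} (C : Fin m → G.Subgraph) : Prop :=
  (∀ i, IsEvenCycle (C i)) ∧ ∀ e ∈ G.edgeSet, ∃ i, e ∈ (C i).edgeSet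

/-- The length of a family of subgraphs. -/
noncomputable def coverLength {m : ℕ} (C : Fin m → G.Subgraph) : ℕ :=
  ∑ i, (C i).edgeSet.ncard

end defs

/-! ## Pieces and the construction -/

/-- A finite graph with an edge `xy` and the labelled other neighbours `x0, x1` of `x` and
`y0, y1` of `y`. -/
structure Piece where
  V : Type
  fin : Finite V
  G : SimpleGraph V
  x : V
  y : V
  x0 : V
  x1 : V
  y0 : V
  y1 : V
  hxy : G.Adj x y
  hx0 : G.Adj x x0
  hx1 : G.Adj x x1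
  hy0 : G.Adj y y0
  hy1 : G.Adj y y1
  hx0y : x0 ≠ y
  hx1y : x1 ≠ y
  hx01 : x0 ≠ x1
  hy0x : y0 ≠ x
  hy1x : y1 ≠ x
  hy01 : y0 ≠ y1

attribute [instance] Piece.fin

/-- Vertices of the composite graph: the vertices of `H_i = G_i - {x_i, y_i}`, the new
vertices `a_i, b_i, c_i` and the vertex `u`. -/
inductive CV (P : Fin 3 → Piece) : Type
  | h (i : Fin 3) (v : (P i).V) (hx : v ≠ (P i).x) (hy : v ≠ (P i).y)
  | a (i : Fin 3)
  | b (i : Fin 3)
  | c (i : Fin 3)
  | u

/-- The edges of the composite graph (each listed in one direction). -/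
inductive CE (P : Fin 3 → Piece) : CV P → CV P → Prop
  | inner (i : Fin 3) (v w : (P i).V) (hx : v ≠ (P i).x) (hy : v ≠ (P i).y)
      (hx' : w ≠ (P i).x) (hy' : w ≠ (P i).y) (h : (P i).G.Adj v w) :
      CE P (.h i v hx hy) (.h i w hx' hy')
  | ax (i : Fin 3) : CE P (.a i) (.h (i + 1) (P (i + 1)).x0 (P (i + 1)).hx0.ne' (P (i + 1)).hx0y)
  | ay (i : Fin 3) : CE P (.a i) (.h (i - 1) (P (i - 1)).y0 (P (i - 1)).hy0x (P (i - 1)).hy0.ne')
  | bx (i : Fin 3) : CE P (.b i) (.h (i + 1) (P (i + 1)).x1 (P (i + 1)).hx1.ne' (P (i + 1)).hx1y)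
  | by1 (i : Fin 3) : CE P (.b i) (.h (i - 1) (P (i - 1)).y1 (P (i - 1)).hy1x (P (i - 1)).hy1.ne')
  | ca (i : Fin 3) : CE P (.c i) (.a i)
  | cb (i : Fin 3) : CE P (.c i) (.b i)
  | cu (i : Fin 3) : CE P (.c i) .u

/-- The composite graph of three pieces. -/
def comp (P : Fin 3 → Piece) : SimpleGraph (CV P) := SimpleGraph.fromRel (CE P)

/-- The same piece three times. -/
abbrev three (Q : Piece) : Fin 3 → Piece := fun _ => Q

theorem comp_adj_of {P : Fin 3 → Piece} {v w : CV P} (h : CE P v w) (hne : v ≠ w) :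
    (comp P).Adj v w := by
  rw [comp, SimpleGraph.fromRel_adj]
  exact ⟨hne, Or.inl h⟩

instance finCV (P : Fin 3 → Piece) : Finite (CV P) := by
  have : Function.Injective (fun v : CV P => match v with
    | .h i v _ _ => (Sum.inl ⟨i, v⟩ : (Σ i, (P i).V) ⊕ (Fin 3 ⊕ Fin 3 ⊕ Fin 3 ⊕ Unit))
    | .a i => Sum.inr (Sum.inl i)
    | .b i => Sum.inr (Sum.inr (Sum.inl i))
    | .c i => Sum.inr (Sum.inr (Sum.inr (Sum.inl i)))
    | .u => Sum.inr (Sum.inr (Sum.inr (Sum.inr ())))) := by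
    intro v w h
    cases v <;> cases w <;> simp at h ⊢
    · obtain ⟨h1, h2⟩ := h
      subst h1
      simpa using h2
    all_goals exact h
  exact Finite.of_injective _ this

/-- The next piece: the composite of three copies of `Q` with the edge `c_0 a_0`; the other
neighbours of `c_0` are `b_0, u`, those of `a_0` are `x_1^0` and `y_2^0`. -/
def next (Q : Piece) : Piece where
  V := CV (three Q)
  fin := finCV _
  G := comp (three Q)
  x := .c 0
  y := .a 0
  x0 := .b 0
  x1 := .u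
  y0 := .h 1 Q.x0 Q.hx0.ne' Q.hx0y
  y1 := .h 2 Q.y0 Q.hy0x Q.hy0.ne'
  hxy := comp_adj_of (CE.ca 0) (by simp)
  hx0 := comp_adj_of (CE.cb 0) (by simp)
  hx1 := comp_adj_of (CE.cu 0) (by simp)
  hy0 := comp_adj_of (CE.ax 0) (by simp)
  hy1 := comp_adj_of (CE.ay 0) (by simp)
  hx0y := by simp
  hx1y := by simp
  hx01 := by simp
  hy0x := by simp
  hy1x := by simp
  hy01 := by simp

/-! ## Labellings -/

section lab
variable {V : Type} (G : SimpleGraph V)

/-- `w1, w2, w3` are the three neighbours of `v`. -/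
def Nbr3 (v w1 w2 w3 : V) : Prop :=
  w1 ≠ w2 ∧ w1 ≠ w3 ∧ w2 ≠ w3 ∧ ∀ w, G.Adj v w ↔ (w = w1 ∨ w = w2 ∨ w = w3)

/-- The labelling is valid at `v`: nonempty labels, every label on an even number of the
three edges at `v`. -/
def ValidAt (L : V → V → Finset ℕ) (v : V) : Prop :=
  ∀ w1 w2 w3, Nbr3 G v w1 w2 w3 → (L v w1).Nonempty ∧ L v w1 = symmDiff (L v w2) (L v w3)

/-- The labelling is good at `v`: the labels of the three edges have sizes `2, 1, 1`. -/
def GoodAt (L : V → V → Finset ℕ) (v : V) : Prop :=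
  ∃ w1 w2 w3, Nbr3 G v w1 w2 w3 ∧ (L v w1).card = 2 ∧ (L v w2).card = 1 ∧ (L v w3).card = 1

/-- A labelling of the whole graph. -/
def FullLab (L : V → V → Finset ℕ) : Prop :=
  (∀ v w, L v w = L w v) ∧ ∀ v, ValidAt G L v

/-- No labelling is good at every vertex. -/
def ZEF : Prop := ∀ L, FullLab G L → ∃ v, ¬ GoodAt G L v

/-- Every edge cut with at most three edges has a side with at most one vertex. -/
def P4 : Prop := ∀ X : Set V, (edgeCut G X).ncard ≤ 3 → X.ncard ≤ 1 ∨ Xᶜ.ncard ≤ 1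

/-- No triangle and no 4-cycle. -/
def NoShort : Prop :=
  (∀ a b c, G.Adj a b → G.Adj b c → ¬ G.Adj a c) ∧
  (∀ a b c d, a ≠ c → b ≠ d → G.Adj a b → G.Adj b c → G.Adj c d → ¬ G.Adj d a)

end lab

/-- A labelling of a piece, valid at all vertices other than `x, y`. -/
def PoleLab (P : Piece) (L : P.V → P.V → Finset ℕ) : Prop :=
  (∀ v w, L v w = L w v) ∧ ∀ v, v ≠ P.x → v ≠ P.y → ValidAt P.G L v

/-- The vertices other than `x, y` where the labelling is not good. -/
def Bad (P : Piece) (L : P.V → P.V → Finset ℕ) : Set P.V :=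
  {v | v ≠ P.x ∧ v ≠ P.y ∧ ¬ GoodAt P.G L v}

/-- At least `N` bad vertices in every labelling of the piece. -/
def ManyBad (P : Piece) (N : ℕ) : Prop := ∀ L, PoleLab P L → N ≤ (Bad P L).ncard

/-- The sizes of the labels at the removed ends are forced when all other vertices are
good. -/
def Forced (P : Piece) : Prop :=
  ∀ L, PoleLab P L → (∀ v, v ≠ P.x → v ≠ P.y → GoodAt P.G L v) →
    (L P.x P.x0).card = 1 ∧ (L P.x P.x1).card = 1 ∧ (L P.y P.y0).card = 2 ∧ (L P.y P.y1).card = 2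

/-- The condition on the labels at the removed ends. -/
def NC (P : Piece) : Prop :=
  ∀ L, PoleLab P L → (∀ v, v ≠ P.x → v ≠ P.y → GoodAt P.G L v) →
    (symmDiff (L P.x P.x0) (L P.x P.x1)).card ≠ 1 ∧
    ((symmDiff (L P.x P.x0) (L P.x P.x1)).card = 2 →
      ((L P.x P.x0).card = 2 ∧ (L P.x P.x1).card = 2) ∨
      ((L P.y P.y0).card = 2 ∧ (L P.y P.y1).card = 2))

/-! ## The jobs -/

/-- JOB SN-HAND: for each label the number of dangling edges carrying it is even. -/
def Hand : Prop := ∀ P : Piece, Cubic P.G → NoShort P.G → ∀ L, PoleLab P L →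
  symmDiff (L P.x P.x0) (L P.x P.x1) = symmDiff (L P.y P.y0) (L P.y P.y1)

/-- A graph without zero excess labelling gives pieces with `NC`. -/
def ZefNC : Prop := ∀ P : Piece, Cubic P.G → NoShort P.G → ZEF P.G → NC P

/-- JOB SN-ZNC -/
def JZefNC : Prop := Hand → ZefNC

/-- Forced sizes imply `NC`. -/
def ForcedNC : Prop := ∀ P : Piece, Cubic P.G → NoShort P.G → Forced P → NC P

/-- JOB SN-FNC -/
def JForcedNC : Prop := Hand → ForcedNC

/-- JOB SN-FZ: forced sizes imply that the graph has no zero excess labelling. -/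
def ForcedZEF : Prop := ∀ P : Piece, Cubic P.G → Forced P → ZEF P.G

/-- JOB SN-CUB: the next piece is cubic. -/
def NextCubic : Prop := ∀ P : Piece, Cubic P.G → NoShort P.G → Cubic (next P).G

/-- JOB SN-GIR: the next piece has no triangle and no 4-cycle. -/
def NextNoShort : Prop := ∀ P : Piece, Cubic P.G → NoShort P.G → NoShort (next P).G

/-- JOB SN-P4: small cuts in the next piece. -/
def NextP4 : Prop := ∀ P : Piece, Cubic P.G → NoShort P.G → P4 P.G → P4 (next P).G

/-- JOB SN-CYC -/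
def CycOfP4 : Prop := ∀ (V : Type) [Finite V] (G : SimpleGraph V), P4 G → CyclFour G

/-- JOB SN-EG -/
def EgirthOfNoShort : Prop := ∀ (V : Type) (G : SimpleGraph V), NoShort G → 5 ≤ G.egirth

/-- JOB SN-COL -/
def NotColourable : Prop := ∀ (V : Type) [Finite V] (G : SimpleGraph V),
  Cubic G → ZEF G → ¬ ThreeEdgeColourable G

/-- JOB SN-EXC -/
def ExcOfZEF : Prop := ∀ (V : Type) [Finite V] (G : SimpleGraph V),
  Cubic G → ZEF G → ExcGeFive G

/-- JOB SN-REST: a labelling of the next piece restricts to the three copies. -/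
def Restrict : Prop := ∀ P : Piece, Cubic P.G → NoShort P.G →
  ∀ L : (next P).V → (next P).V → Finset ℕ, PoleLab (next P) L → ∀ i : Fin 3,
    ∃ M : P.V → P.V → Finset ℕ, PoleLab P M ∧
      (∀ (v : P.V) (hx : v ≠ P.x) (hy : v ≠ P.y),
        (GoodAt P.G M v ↔ GoodAt (next P).G L (CV.h i v hx hy))) ∧
      M P.x P.x0 = L (CV.a (i - 1)) (CV.h i P.x0 P.hx0.ne' P.hx0y) ∧
      M P.x P.x1 = L (CV.b (i - 1)) (CV.h i P.x1 P.hx1.ne' P.hx1y) ∧
      M P.y P.y0 = L (CV.a (i + 1)) (CV.h i P.y0 P.hy0x P.hy0.ne') ∧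
      M P.y P.y1 = L (CV.b (i + 1)) (CV.h i P.y1 P.hy1x P.hy1.ne')

/-- `A, B, C` are the labels of the three edges at a good vertex. -/
def Tri (A B C : Finset ℕ) : Prop :=
  A = symmDiff B C ∧
  ((A.card = 2 ∧ B.card = 1 ∧ C.card = 1) ∨ (A.card = 1 ∧ B.card = 2 ∧ C.card = 1) ∨
    (A.card = 1 ∧ B.card = 1 ∧ C.card = 2))

/-- What an all-good piece forces on its dangling edges. -/
def Pole (X0 X1 Y0 Y1 : Finset ℕ) : Prop :=
  symmDiff X0 X1 = symmDiff Y0 Y1 ∧ (symmDiff X0 X1).card ≠ 1 ∧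
    ((symmDiff X0 X1).card = 2 → (X0.card = 2 ∧ X1.card = 2) ∨ (Y0.card = 2 ∧ Y1.card = 2))

/-- JOB SN-Q: the finite set lemma. `X i j` is the label of the edge from `x_i^j`, `Y i j` from
`y_i^j`, `A i` of `c_i a_i`, `B i` of `c_i b_i`, `U i` of `c_i u`. -/
def QLemma : Prop := ∀ (X Y : Fin 3 → Fin 2 → Finset ℕ) (A B U : Fin 3 → Finset ℕ),
  (∀ i, Pole (X i 0) (X i 1) (Y i 0) (Y i 1)) →
  (∀ i j, (X i j).card = 1 ∨ (X i j).card = 2) → (∀ i j, (Y i j).card = 1 ∨ (Y i j).card = 2) →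
  Tri (A 1) (X 2 0) (Y 0 0) → Tri (A 2) (X 0 0) (Y 1 0) →
  Tri (B 0) (X 1 1) (Y 2 1) → Tri (B 1) (X 2 1) (Y 0 1) → Tri (B 2) (X 0 1) (Y 1 1) →
  Tri (A 1) (B 1) (U 1) → Tri (A 2) (B 2) (U 2) → Tri (U 0) (U 1) (U 2) →
  (U 0).card = 1 ∧ (B 0).card = 1 ∧ (X 1 0).card = 2 ∧ (Y 2 0).card = 2

/-- The next piece has forced sizes. -/
def NextForced : Prop := ∀ P : Piece, Cubic P.G → NoShort P.G → NC P → Forced (next P)

/-- JOB SN-FORCED -/
def JNextForced : Prop := Hand → Restrict → QLemma → NextForced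

/-- The next piece after a piece with forced sizes has a bad vertex. -/
def NextBad : Prop := ∀ P : Piece, Cubic P.G → NoShort P.G → Forced P → ManyBad (next P) 1

/-- JOB SN-ONE -/
def JNextBad : Prop := Restrict → NextBad

/-- The number of bad vertices triples. -/
def NextMany : Prop := ∀ (P : Piece) (N : ℕ), Cubic P.G → NoShort P.G → ManyBad P N →
  ManyBad (next P) (3 * N)

/-- JOB SN-MANY -/
def JNextMany : Prop := Restrict → NextMany

/-- JOB SN-LEN: the length of a cycle cover. -/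
def CoverLen : Prop := ∀ (V : Type) [Finite V] (G : SimpleGraph V), Cubic G →
  ∀ (m : ℕ) (C : Fin m → G.Subgraph), IsCycleCover C →
    ∃ L, FullLab G L ∧ 4 * G.edgeSet.ncard + 3 * {v | ¬ GoodAt G L v}.ncard ≤ 3 * coverLength C

/-- JOB SN-PET: the Petersen graph as a piece. -/
def PetersenShape : Prop := ∃ P : Piece, Cubic P.G ∧ NoShort P.G ∧ P4 P.G ∧ ZEF P.G

end Pool.Agent.Q279.SN
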